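import Mathlib
import Pool.Agent.Q285.RectLE

set_option autoImplicit false

/-! The inversion generating function of the 2143-avoiding linear extensions of `EN_{s,3}`. -/

namespace Pool.Agent.Results.MP_071fcf_co.ThreeRows

open Pool.Agent.Q285.RectLE

/-- `EN_{s,3}(2143)(q) = q^{9 C(s,2)} F_s(1/q)` for every `s ≥ 1`: as an identity of Laurent
polynomials with integer coefficients, and then for every invertible element `q` (with inverse `x`)
of a commutative ring. -/
theorem result :
    (∀ s : ℕ, 1 ≤ s → gen s 3 (LaurentPolynomial.T 1 : LaurentPolynomial ℤ) =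
      (LaurentPolynomial.T 1) ^ (9 * s.choose 2) * F (LaurentPolynomial.T (-1)) s) ∧
    ∀ (K : Type) [CommRing K] (q x : K), q * x = 1 → ∀ s : ℕ, 1 ≤ s →
      gen s 3 q = q ^ (9 * s.choose 2) * F x s := by
  refine ⟨fun s hs => gen_three _ _ ?_ s hs, fun _ _ q x h s hs => gen_three q x h s hs⟩
  rw [← LaurentPolynomial.T_add]
  simp

end Pool.Agent.Results.MP_071fcf_co.ThreeRows
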